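import Pool.Agent.Helper149.Thin3.Final

set_option autoImplicit false

namespace Pool.Agent.Results.MP_c06095_nt.ThreeOverK

/-- `r₁(A, n, k)`: the number of ordered `k`-tuples of elements of `A` with sum `n`. -/
noncomputable def r1 (A : Set ℕ) (n k : ℕ) : ℕ :=
  Nat.card {f : Fin k → ℕ // (∀ i, f i ∈ A) ∧ ∑ i, f i = n}

/-- `r₂(A, n, k)`: the number of tuples `a₁ ≤ a₂ ≤ … ≤ a_k` in `A` with sum `n`. -/
noncomputable def r2 (A : Set ℕ) (n k : ℕ) : ℕ :=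
  Nat.card {f : Fin k → ℕ // (∀ i, f i ∈ A) ∧ ∑ i, f i = n ∧ Monotone f}

/-- `r₃(A, n, k)`: the number of tuples `a₁ < a₂ < … < a_k` in `A` with sum `n`. -/
noncomputable def r3 (A : Set ℕ) (n k : ℕ) : ℕ :=
  Nat.card {f : Fin k → ℕ // (∀ i, f i ∈ A) ∧ ∑ i, f i = n ∧ StrictMono f}

/-- the counting function `A(n) = |{a ∈ A : a ≤ n}|` -/
noncomputable def cnt (A : Set ℕ) (n : ℕ) : ℕ := Nat.card {a : ℕ // a ∈ A ∧ a ≤ n}

/-- For every `k ≥ 4` and every `ε > 0` there is one infinite set `A` of positive integers with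
`A(n) = O(n^(3/k + ε))` for which all three representation functions `r₁, r₂, r₃` of order `k` are
strictly increasing from a certain point on. -/
theorem result (k : ℕ) (hk : 4 ≤ k) (ε : ℝ) (hε : 0 < ε) :
    ∃ A : Set ℕ, A.Infinite ∧ (∀ a ∈ A, 1 ≤ a) ∧
      (∃ C : ℝ, ∀ n : ℕ, 1 ≤ n → (cnt A n : ℝ) ≤ C * (n : ℝ) ^ (3 / (k : ℝ) + ε)) ∧
      ∃ n₀ : ℕ, ∀ n ≥ n₀, r1 A n k < r1 A (n + 1) k ∧ r2 A n k < r2 A (n + 1) k ∧
        r3 A n k < r3 A (n + 1) k :=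
  Pool.Agent.Helper149.Thin3.three_over_k k hk ε hε

end Pool.Agent.Results.MP_c06095_nt.ThreeOverK
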